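import Mathlib
import Pool.Agent.H19.StackSort.TBound
import Pool.Agent.H19.StackSort.SBound
import Pool.Agent.H19.StackSort.Numeric

set_option autoImplicit false

open scoped Nat
open Pool.Agent.H19.StackSort

namespace Pool.Agent.Results.MP_78620a_co.LargeT

/-- The number of permutation words `w` of `1, ..., n` with `S^t(w) = 1 2 ... n`. -/
noncomputable def stackCount (n t : ℕ) : ℕ :=
  Set.ncard {w : List ℕ | w.Perm (List.range' 1 n) ∧ stackSort^[t] w = List.range' 1 n}

/-- The number of permutation words `w` of `1, ..., n` with `T^t(w) = 1 2 ... n`. -/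
noncomputable def tackCount (n t : ℕ) : ℕ :=
  Set.ncard {w : List ℕ | w.Perm (List.range' 1 n) ∧ revstackSort^[t] w = List.range' 1 n}

lemma ncard_filter (n : ℕ) (P : List ℕ → Prop) [DecidablePred P] :
    Set.ncard {w : List ℕ | w.Perm (List.range' 1 n) ∧ P w}
      + ((Pn n).filter (fun w => ¬ P w)).card = n ! := by
  have h1 : {w : List ℕ | w.Perm (List.range' 1 n) ∧ P w}
      = (((Pn n).filter P : Finset (List ℕ)) : Set (List ℕ)) := by
    ext w
    simp [mem_Pn]
  rw [h1, Set.ncard_coe_finset, Finset.card_filter_add_card_filter_not, card_Pn]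

lemma unsorted_lt (n t : ℕ) (ht : t + 4 ≤ n)
    (h : tailSum n t < ((n : ℝ) - t) * ((n : ℝ) - t - 1) / (2 * (n * ((n : ℝ) - 1)))) :
    ((Pn n).filter (fun w => ¬ revstackSort^[t] w = List.range' 1 n)).card
      < ((Pn n).filter (fun w => ¬ stackSort^[t] w = List.range' 1 n)).card := by
  have hT := card_unsorted_T n t
  have hS := card_unsorted_S n t (by omega)
  have hn : (4 : ℝ) ≤ n := by exact_mod_cast (by omega : 4 ≤ n)
  have hfac : (n ! : ℝ) = n * ((n : ℝ) - 1) * ((n - 2)! : ℝ) := by
    obtain ⟨k, rfl⟩ : ∃ k, n = k + 2 := ⟨n - 2, by omega⟩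
    rw [Nat.factorial_succ, Nat.factorial_succ, show k + 2 - 2 = k by omega]
    push_cast
    ring
  have hchoose : ((n - t).choose 2 : ℝ) = ((n : ℝ) - t) * ((n : ℝ) - t - 1) / 2 := by
    rw [Nat.cast_choose_two, Nat.cast_sub (by omega)]
  have h1 : (n ! : ℝ) * tailSum n t < ((n - 2)! : ℝ) * ((n - t).choose 2 : ℝ) := by
    have h2 : (n ! : ℝ) * tailSum n t
        < (n ! : ℝ) * (((n : ℝ) - t) * ((n : ℝ) - t - 1) / (2 * (n * ((n : ℝ) - 1)))) :=
      mul_lt_mul_of_pos_left h (by positivity)
    refine h2.trans_eq ?_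
    rw [hfac, hchoose]
    have h3 : (n : ℝ) ≠ 0 := by linarith
    have h4 : (n : ℝ) - 1 ≠ 0 := by linarith
    field_simp
  have h2 : (((Pn n).filter (fun w => revstackSort^[t] w ≠ List.range' 1 n)).card : ℝ)
      < (((Pn n).filter (fun w => stackSort^[t] w ≠ List.range' 1 n)).card : ℝ) := by
    refine lt_of_le_of_lt hT (lt_of_lt_of_le h1 ?_)
    exact_mod_cast hS
  exact_mod_cast h2

/-- For `t ≤ n - 4` and `t ≥ min (2n/3, n/2 + √(n log n))`, strictly more permutations of
`1, ..., n` are sorted by `t` passes of `T` than by `t` passes of `S`. -/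
theorem result (n t : ℕ) (ht : t + 4 ≤ n)
    (h : min (2 * (n : ℝ) / 3) ((n : ℝ) / 2 + Real.sqrt (n * Real.log n)) ≤ (t : ℝ)) :
    stackCount n t < tackCount n t := by
  have h1 : tailSum n t < ((n : ℝ) - t) * ((n : ℝ) - t - 1) / (2 * (n * ((n : ℝ) - 1))) := by
    rcases min_le_iff.1 h with h2 | h2
    · apply range_two_thirds n t _ ht
      have h3 : 2 * (n : ℝ) ≤ 3 * t := by linarith
      exact_mod_cast h3
    · exact range_half n t h2 ht
  have h2 := unsorted_lt n t ht h1
  have h3 := ncard_filter n (fun w => stackSort^[t] w = List.range' 1 n)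
  have h4 := ncard_filter n (fun w => revstackSort^[t] w = List.range' 1 n)
  unfold stackCount tackCount
  omega

end Pool.Agent.Results.MP_78620a_co.LargeT
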