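import Pool.Agent.H47.ST.Fin

/-!
# Steingrimsson's conjecture on stack sort versus reversed stack sort is false

`S` is the stack sort operator on words (`S (L m R) = S L ++ S R ++ [m]`, `m` the largest letter),
`T w = S w.reverse` is the revstack sort operator, `word π` is the word `π_1 ... π_n` with the
letters `1, ..., n`. For every sufficiently large `t` and `n = t^3 (t^2 + t - 1)` there are more
than `(11/10)^n` times as many permutations sorted by `t` passes of `S` as by `t` passes of `T`.
In particular the conjectured inequality `|Stack_n^t| ≤ |Tack_n^t|` fails.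
-/

namespace Pool.Agent.Results.MP_78620a_co.StackExceedsTack

open Pool.Agent.H47.ST

/-! ### The definitions of `S` and `T` satisfy the recursions of the problem -/

theorem S_nil : S [] = [] := by rw [S]; simp

theorem mx_split (L R : List ℕ) (m : ℕ) (hL : ∀ x ∈ L, x < m) (hR : ∀ x ∈ R, x < m) :
    mx (L ++ m :: R) = m := by
  have h1 : mx (L ++ m :: R) ∈ L ++ m :: R := mx_mem (by simp)
  have h2 : ∀ x ∈ L ++ m :: R, x ≤ mx (L ++ m :: R) := Pool.Agent.H35.STK.le_mx
  have h3 : m ≤ mx (L ++ m :: R) := h2 m (by simp)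
  rcases List.mem_append.1 h1 with h | h
  · have := hL _ h
    omega
  · rcases List.mem_cons.1 h with h | h
    · exact h
    · have := hR _ h
      omega

theorem S_rec (L R : List ℕ) (m : ℕ) (hL : ∀ x ∈ L, x < m) (hR : ∀ x ∈ R, x < m) :
    S (L ++ m :: R) = S L ++ S R ++ [m] := by
  have hm := mx_split L R m hL hR
  have h1 : (L ++ m :: R).takeWhile (fun x => decide (x ≠ m)) = L := by
    rw [List.takeWhile_append_of_pos]
    · rw [List.takeWhile_cons_of_neg (by simp), List.append_nil]
    · intro x hx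
      have := (hL x hx).ne
      simpa using this
  have h2 : (L ++ m :: R).dropWhile (fun x => decide (x ≠ m)) = m :: R := by
    rw [List.dropWhile_append_of_pos]
    · rw [List.dropWhile_cons_of_neg (by simp)]
    · intro x hx
      have := (hL x hx).ne
      simpa using this
  rw [S, dif_neg (by simp), hm, h1, h2, List.tail_cons]

theorem T_nil : T [] = [] := by
  unfold T
  rw [List.reverse_nil, S_nil]

theorem T_rec (L R : List ℕ) (m : ℕ) (hL : ∀ x ∈ L, x < m) (hR : ∀ x ∈ R, x < m) :
    T (L ++ m :: R) = T R ++ T L ++ [m] := by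
  unfold T
  rw [List.reverse_append, List.reverse_cons, List.append_assoc, List.singleton_append]
  exact S_rec _ _ m (fun x hx => hR x (List.mem_reverse.1 hx))
    (fun x hx => hL x (List.mem_reverse.1 hx))

/-- the example `S (42513) = 24135` of the problem -/
example : S [4, 2, 5, 1, 3] = [2, 4, 1, 3, 5] := by
  rw [q_RUN _ (by decide)]
  decide

/-- the example `T (42513) = 13245` of the problem -/
example : T [4, 2, 5, 1, 3] = [1, 3, 2, 4, 5] := by
  unfold T
  rw [q_RUN _ (by decide)]
  decide

/-- the word of the identity is `1 2 ... n` -/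
theorem word_one (n : ℕ) : word (1 : Equiv.Perm (Fin n)) = (List.range n).map (fun i => i + 1) := by
  unfold word
  apply List.ext_getElem
  · simp
  · intro i h1 h2
    simp

/-! ### The counterexamples -/

/-- the permutations of `n` letters sorted by `t` passes of the stack sort operator -/
def Stack (n t : ℕ) : Set (Equiv.Perm (Fin n)) :=
  {π | S^[t] (word π) = word (1 : Equiv.Perm (Fin n))}

/-- the permutations of `n` letters sorted by `t` passes of the revstack sort operator -/
def Tack (n t : ℕ) : Set (Equiv.Perm (Fin n)) :=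
  {π | T^[t] (word π) = word (1 : Equiv.Perm (Fin n))}

theorem result : ∃ t₀ : ℕ, ∀ t ≥ t₀, ∃ n : ℕ, n = t ^ 3 * (t ^ 2 + t - 1) ∧
    7 ≤ n ∧ 3 ≤ t ∧ t ≤ n - 4 ∧
    (11 / 10 : ℝ) ^ n * (Nat.card (Tack n t) : ℝ) < (Nat.card (Stack n t) : ℝ) := by
  obtain ⟨t0, h⟩ := pf_T_EXP
  refine ⟨t0, fun t ht => ⟨_, rfl, ?_, (h t ht).1, ?_, (h t ht).2⟩⟩
  · have h3 := (h t ht).1
    have h1 : 3 ^ 3 ≤ t ^ 3 := Nat.pow_le_pow_left h3 3
    have h2 : 1 ≤ t ^ 2 + t - 1 := by
      have : 1 ≤ t ^ 2 := Nat.one_le_pow _ _ (by omega)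
      omega
    calc 7 ≤ 3 ^ 3 * 1 := by norm_num
      _ ≤ _ := Nat.mul_le_mul h1 h2
  · have h3 := (h t ht).1
    have h5 : 3 * 3 ≤ t * t := Nat.mul_le_mul h3 h3
    have h1 : t + 4 ≤ t ^ 3 := by
      have : t ^ 3 = t * (t * t) := by ring
      rw [this]
      nlinarith
    have h2 : 1 ≤ t ^ 2 + t - 1 := by
      have : 1 ≤ t ^ 2 := Nat.one_le_pow _ _ (by omega)
      omega
    have h4 : t ^ 3 * 1 ≤ t ^ 3 * (t ^ 2 + t - 1) := Nat.mul_le_mul le_rfl h2
    omega

end Pool.Agent.Results.MP_78620a_co.StackExceedsTack
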