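import Mathlib
import Pool.Agent.H26.T3.MainT

set_option autoImplicit false

open Pool.Agent.H19.StackSort

namespace Pool.Agent.Results.MP_78620a_co.ThreePasses

/-- The number of permutation words `w` of `1, ..., n` with `S^t(w) = 1 2 ... n`. -/
noncomputable def stackCount (n t : ℕ) : ℕ :=
  Set.ncard {w : List ℕ | w.Perm (List.range' 1 n) ∧ stackSort^[t] w = List.range' 1 n}

/-- The number of permutation words `w` of `1, ..., n` with `T^t(w) = 1 2 ... n`. -/
noncomputable def tackCount (n t : ℕ) : ℕ :=
  Set.ncard {w : List ℕ | w.Perm (List.range' 1 n) ∧ revstackSort^[t] w = List.range' 1 n}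

/-- Three passes: for every `n ≥ 5`, strictly fewer permutations of `1, ..., n` are sorted
by three passes of `S` than by three passes of `T`. -/
theorem result : ∀ n : ℕ, 5 ≤ n → stackCount n 3 < tackCount n 3 := by
  intro n hn
  unfold stackCount tackCount
  rw [Pool.Agent.H26.T3.ncard_eq stackSort stackSort_perm n, Pool.Agent.H26.T3.E_S,
    Pool.Agent.H26.T3.ncard_eq revstackSort revstackSort_perm n, Pool.Agent.H26.T3.E_T]
  exact Pool.Agent.H26.T3.H_lt n hn

end Pool.Agent.Results.MP_78620a_co.ThreePasses
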